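import Mathlib
import Pool.Agent.Helper85.ProP.TopStmts

/-!
# Packet D of MP_ac806c_lc: commutative algebra
-/

set_option autoImplicit false
set_option linter.unusedSectionVars false

namespace Pool.Agent.Helper88.ProP

open IsLocalRing Pool.Agent.Helper85.ProP

variable {p : ℕ} [Fact p.Prime]

/-- a nonzero prime ideal of `ℤ_p` contains `p` -/
theorem padicInt_prime_eq_bot (I : Ideal ℤ_[p]) [hI : I.IsPrime] (h : (p : ℤ_[p]) ∉ I) : I = ⊥ := by
  by_contra hne
  have h1 : I.IsMaximal := hI.isMaximal hne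
  have h2 := IsLocalRing.eq_maximalIdeal h1
  apply h
  rw [h2, PadicInt.maximalIdeal_eq_span_p]
  exact Ideal.mem_span_singleton_self _

/-- a prime ideal of `ℤ_p` containing `p` is maximal -/
theorem padicInt_prime_isMaximal (I : Ideal ℤ_[p]) [hI : I.IsPrime] (h : (p : ℤ_[p]) ∈ I) :
    I.IsMaximal := by
  refine hI.isMaximal ?_
  rintro rfl
  rw [Ideal.mem_bot] at h
  exact (Nat.cast_ne_zero.2 (Fact.out : p.Prime).ne_zero) h

variable {R : Type} [CommRing R] [IsLocalRing R] [IsNoetherianRing R] [Algebra ℤ_[p] R]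

/-- a prime `q ≥ P'` containing `p` is maximal if `R ⧸ P'` is finite over `ℤ_p` -/
theorem isMaximal_of_finite (P' q : Ideal R) [q.IsPrime] (hle : P' ≤ q) (hp : (p : R) ∈ q)
    (hfin : Module.Finite ℤ_[p] (R ⧸ P')) : q.IsMaximal := by
  have h1 : Module.Finite ℤ_[p] (R ⧸ q) := by
    refine Module.Finite.of_surjective (Ideal.Quotient.factorₐ ℤ_[p] hle).toLinearMap ?_
    exact Ideal.Quotient.factor_surjective hle
  have h2 : Algebra.IsIntegral ℤ_[p] (R ⧸ q) := inferInstance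
  have h3 : ((⊥ : Ideal (R ⧸ q)).comap (algebraMap ℤ_[p] (R ⧸ q))).IsMaximal := by
    have : ((⊥ : Ideal (R ⧸ q)).comap (algebraMap ℤ_[p] (R ⧸ q))).IsPrime := inferInstance
    refine padicInt_prime_isMaximal _ ?_
    rw [Ideal.mem_comap, map_natCast, Ideal.mem_bot]
    rw [← map_natCast (Ideal.Quotient.mk q), Ideal.Quotient.eq_zero_iff_mem]
    exact hp
  have h4 := Ideal.isMaximal_of_isIntegral_of_isMaximal_comap (⊥ : Ideal (R ⧸ q)) h3
  exact (Ideal.bot_quotient_isMaximal_iff q).1 h4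

/-- commutative algebra part of the dependence lemma -/
theorem eq_of_primes (P : Ideal R) [P.IsPrime] (hpP : (p : R) ∉ P)
    (hmax : ∀ P' : Ideal R, P'.IsPrime → P < P' → (p : R) ∉ P' → Module.Finite ℤ_[p] (R ⧸ P'))
    (pp nn : Ideal R) [hpp : pp.IsPrime] [hnnp : nn.IsPrime] (hPpp : P ≤ pp)
    (hppp : (p : R) ∈ pp) (hle : pp ≤ nn) (hnn : nn ≠ maximalIdeal R) : pp = nn := by
  classical
  by_contra hne
  have hlt : pp < nn := lt_of_le_of_ne hle hne
  set J := P ⊔ Ideal.span {(p : R)} with hJ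
  have hJpp : J ≤ pp := sup_le hPpp ((Ideal.span_singleton_le_iff_mem _).2 hppp)
  have hfin : J.minimalPrimes.Finite := Ideal.finite_minimalPrimes_of_isNoetherianRing R J
  have h1 : ∀ Pi ∈ J.minimalPrimes, ¬ nn ≤ Pi := by
    intro Pi hPi h
    have h2 := hPi.2 ⟨hpp, hJpp⟩ (hle.trans h)
    exact absurd (h.trans h2) (not_le_of_gt hlt)
  obtain ⟨f, hf, hf2⟩ : ∃ f ∈ nn, ∀ Pi ∈ J.minimalPrimes, f ∉ Pi := by
    by_contra hcon
    push Not at hcon
    have h2 : (nn : Set R) ⊆ ⋃ i ∈ (↑hfin.toFinset : Set (Ideal R)), ((id i : Ideal R) : Set R) := by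
      intro x hx
      obtain ⟨Pi, h3, h4⟩ := hcon x hx
      rw [Set.mem_iUnion₂]
      exact ⟨Pi, by simpa using h3, h4⟩
    rw [Ideal.subset_union_prime (⊥ : Ideal R) ⊥ (by
      intro i hi _ _
      rw [Set.Finite.mem_toFinset] at hi
      exact hi.1.1)] at h2
    obtain ⟨Pi, h3, h4⟩ := h2
    rw [Set.Finite.mem_toFinset] at h3
    exact h1 Pi h3 h4
  have hPfnn : P ⊔ Ideal.span {f} ≤ nn :=
    sup_le (hPpp.trans hle) ((Ideal.span_singleton_le_iff_mem _).2 hf)
  obtain ⟨P', hP', hP'nn⟩ := Ideal.exists_minimalPrimes_le hPfnn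
  have hP'p : P'.IsPrime := hP'.1.1
  have hPP' : P ≤ P' := le_sup_left.trans hP'.1.2
  have hfP' : f ∈ P' := hP'.1.2 (Ideal.mem_sup_right (Ideal.mem_span_singleton_self _))
  have hpP' : (p : R) ∉ P' := by
    intro h
    have h3 : J ≤ P' := sup_le hPP' ((Ideal.span_singleton_le_iff_mem _).2 h)
    obtain ⟨Pi, hPi, hPiP'⟩ := Ideal.exists_minimalPrimes_le h3
    have hPip : Pi.IsPrime := hPi.1.1
    have hPPi : P ≤ Pi := le_sup_left.trans hPi.1.2
    have hpPi : (p : R) ∈ Pi := hPi.1.2 (Ideal.mem_sup_right (Ideal.mem_span_singleton_self _))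
    have hht := Ideal.map_height_le_one_of_mem_minimalPrimes hP'
    have hmk : Function.Surjective (Ideal.Quotient.mk P) := Ideal.Quotient.mk_surjective
    have q1 : (P'.map (Ideal.Quotient.mk P)).IsPrime :=
      Ideal.map_isPrime_of_surjective hmk (by rwa [Ideal.mk_ker])
    have q2 : (Pi.map (Ideal.Quotient.mk P)).IsPrime :=
      Ideal.map_isPrime_of_surjective hmk (by rwa [Ideal.mk_ker])
    have q0 : (⊥ : Ideal (R ⧸ P)).IsPrime := Ideal.isPrime_bot
    have l1 : (⊥ : Ideal (R ⧸ P)) < Pi.map (Ideal.Quotient.mk P) := by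
      rw [bot_lt_iff_ne_bot]
      intro hb
      have h4 := Ideal.mem_map_of_mem (Ideal.Quotient.mk P) hpPi
      rw [hb, Ideal.mem_bot, Ideal.Quotient.eq_zero_iff_mem] at h4
      exact hpP h4
    have l2 : Pi.map (Ideal.Quotient.mk P) < P'.map (Ideal.Quotient.mk P) := by
      refine lt_of_le_of_ne (Ideal.map_mono hPiP') ?_
      intro hb
      have h4 := Ideal.mem_map_of_mem (Ideal.Quotient.mk P) hfP'
      rw [← hb] at h4
      have h5 : f ∈ (Pi.map (Ideal.Quotient.mk P)).comap (Ideal.Quotient.mk P) := h4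
      rw [Ideal.comap_map_of_surjective _ hmk, ← RingHom.ker_eq_comap_bot, Ideal.mk_ker,
        sup_eq_left.2 hPPi] at h5
      exact hf2 Pi hPi h5
    have h6 := Ideal.height_add_one_le_of_lt_of_isPrime l1
    have h7 := Ideal.height_add_one_le_of_lt_of_isPrime l2
    have h8 : (2 : ℕ∞) ≤ 1 := by
      calc (2 : ℕ∞) = 1 + 1 := by norm_num
        _ ≤ ((⊥ : Ideal (R ⧸ P)).height + 1) + 1 := by
          gcongr
          exact le_add_self
        _ ≤ (Pi.map (Ideal.Quotient.mk P)).height + 1 := by gcongr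
        _ ≤ (P'.map (Ideal.Quotient.mk P)).height := h7
        _ ≤ 1 := hht
    exact absurd h8 (by norm_num)
  have hPltP' : P < P' := by
    refine lt_of_le_of_ne hPP' ?_
    rintro rfl
    obtain ⟨Pi, hPi, _⟩ := Ideal.exists_minimalPrimes_le hJpp
    exact hf2 Pi hPi ((le_sup_left.trans hPi.1.2) hfP')
  have hfin' := hmax P' hP'p hPltP' hpP'
  have hm := isMaximal_of_finite P' nn hP'nn (hle hppp) hfin'
  exact hnn (IsLocalRing.eq_maximalIdeal hm)

/-- a homomorphism from a domain finite over `ℤ_p` to a field of characteristic zero is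
injective -/
theorem ker_le_of_finite {K : Type} [Field K] [CharZero K] (Q : Ideal R) [Q.IsPrime]
    (hfin : Module.Finite ℤ_[p] (R ⧸ Q)) (φ : R →+* K) (hφ : ∀ r ∈ Q, φ r = 0) :
    ∀ r, φ r = 0 → r ∈ Q := by
  intro r hr
  set ψ : (R ⧸ Q) →+* K := Ideal.Quotient.lift Q φ hφ with hψ
  have h2 : Algebra.IsIntegral ℤ_[p] (R ⧸ Q) := inferInstance
  have h3 : (RingHom.ker ψ).comap (algebraMap ℤ_[p] (R ⧸ Q)) = ⊥ := by
    have : (RingHom.ker ψ).IsPrime := RingHom.ker_isPrime ψ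
    refine padicInt_prime_eq_bot _ ?_
    rw [Ideal.mem_comap, map_natCast, RingHom.mem_ker, map_natCast]
    exact Nat.cast_ne_zero.2 (Fact.out : p.Prime).ne_zero
  have h4 : RingHom.ker ψ = ⊥ := Ideal.eq_bot_of_comap_eq_bot h3
  have h5 : Ideal.Quotient.mk Q r ∈ RingHom.ker ψ := by
    rw [RingHom.mem_ker, hψ, Ideal.Quotient.lift_mk, hr]
  rw [h4, Ideal.mem_bot, Ideal.Quotient.eq_zero_iff_mem] at h5
  exact h5

end Pool.Agent.Helper88.ProP
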