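import Mathlib
import Pool.Agent.Helper88.ProP.DepAlg

/-!
# Packet D of MP_ac806c_lc: the ultrafilter lemma
-/

set_option autoImplicit false
set_option linter.unusedSectionVars false

namespace Pool.Agent.Helper88.ProP

open IsLocalRing Pool.Agent.Helper85.ProP Filter Topology

variable {p : ℕ} [hp : Fact p.Prime]

/-! ### roots of unity of `p`-power order -/

theorem one_le_p_sub_one : 1 ≤ p - 1 := by
  have := (Fact.out : p.Prime).two_le
  omega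

theorem norm_pow_eq (hN : StmtNorm) {j : ℕ} {ζ : PadicAlgCl p}
    (h : IsPrimitiveRoot ζ (p ^ (j + 1))) : ‖ζ - 1‖ ^ (p ^ j * (p - 1)) = (p : ℝ)⁻¹ := by
  rw [norm_sub_rev]
  exact hN p j ζ h

theorem inv_p_pos : (0 : ℝ) < (p : ℝ)⁻¹ := by
  have := (Fact.out : p.Prime).pos
  positivity

theorem inv_p_lt_one : (p : ℝ)⁻¹ < 1 := by
  have h1 : (1 : ℝ) < p := by exact_mod_cast (Fact.out : p.Prime).one_lt
  exact inv_lt_one_of_one_lt₀ h1

theorem norm_lt_one (hN : StmtNorm) {j : ℕ} {ζ : PadicAlgCl p}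
    (h : IsPrimitiveRoot ζ (p ^ (j + 1))) : ‖ζ - 1‖ < 1 := by
  by_contra hc
  rw [not_lt] at hc
  have h1 := norm_pow_eq hN h
  have h2 : 1 ≤ ‖ζ - 1‖ ^ (p ^ j * (p - 1)) := one_le_pow₀ hc
  rw [h1] at h2
  exact absurd h2 (not_le.2 inv_p_lt_one)

theorem norm_pos (hN : StmtNorm) {j : ℕ} {ζ : PadicAlgCl p}
    (h : IsPrimitiveRoot ζ (p ^ (j + 1))) : 0 < ‖ζ - 1‖ := by
  rcases (norm_nonneg (ζ - 1)).lt_or_eq with h0 | h0
  · exact h0
  · exfalso
    have h1 := norm_pow_eq hN h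
    have h3 : 0 < p ^ j * (p - 1) :=
      Nat.mul_pos (pow_pos (Fact.out : p.Prime).pos _) one_le_p_sub_one
    rw [← h0, zero_pow h3.ne'] at h1
    exact absurd h1 (ne_of_lt inv_p_pos)

theorem norm_pow_p (hN : StmtNorm) {j : ℕ} {ζ : PadicAlgCl p} (N : ℕ)
    (h : IsPrimitiveRoot ζ (p ^ j)) (hNj : N < j) : ‖ζ ^ p ^ N - 1‖ = ‖ζ - 1‖ ^ p ^ N := by
  obtain ⟨i, rfl⟩ : ∃ i, j = N + (i + 1) := ⟨j - N - 1, by omega⟩
  have h1 : IsPrimitiveRoot (ζ ^ p ^ N) (p ^ (i + 1)) :=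
    h.pow (pow_pos (Fact.out : p.Prime).pos _) (pow_add p N (i + 1))
  have h2 := norm_pow_eq hN h1
  have h3 := norm_pow_eq hN (j := N + i) h
  have h4 : p ^ (N + i) * (p - 1) = p ^ N * (p ^ i * (p - 1)) := by
    rw [pow_add]; ring
  rw [h4, pow_mul, ← h2] at h3
  have h5 : p ^ i * (p - 1) ≠ 0 :=
    (Nat.mul_pos (pow_pos (Fact.out : p.Prime).pos _) one_le_p_sub_one).ne'
  exact ((pow_left_inj₀ (pow_nonneg (norm_nonneg _) _) (norm_nonneg _) h5).1 h3).symm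

theorem exists_bound {c : ℝ} (hc0 : 0 ≤ c) (hc : c < 1) :
    ∃ M : ℕ, ∀ e, M ≤ e → c ^ e < (p : ℝ)⁻¹ := by
  obtain ⟨M, hM⟩ := exists_pow_lt_of_lt_one (inv_p_pos (p := p)) hc
  exact ⟨M, fun e he => lt_of_le_of_lt (pow_le_pow_of_le_one hc0 hc.le he) hM⟩

theorem le_exp (j : ℕ) : j ≤ p ^ j * (p - 1) := by
  have h1 : j < p ^ j := Nat.lt_pow_self (Fact.out : p.Prime).one_lt
  have h2 : p ^ j * 1 ≤ p ^ j * (p - 1) := Nat.mul_le_mul_left _ one_le_p_sub_one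
  omega

theorem exists_order_bound (hN : StmtNorm) {c : ℝ} (hc : c < 1) :
    ∃ j0 : ℕ, ∀ ζ : PadicAlgCl p, (∃ i, ζ ^ p ^ i = 1) → ‖ζ - 1‖ ≤ c → ζ ^ p ^ j0 = 1 := by
  by_cases hc0 : 0 ≤ c
  · obtain ⟨M, hM⟩ := exists_bound (p := p) hc0 hc
    refine ⟨M, ?_⟩
    rintro ζ ⟨i, hi⟩ hζ
    have h1 : orderOf ζ ∣ p ^ i := orderOf_dvd_of_pow_eq_one hi
    obtain ⟨l, hl, hl2⟩ := (Nat.dvd_prime_pow (Fact.out : p.Prime)).1 h1
    have h2 : IsPrimitiveRoot ζ (p ^ l) := by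
      rw [← hl2]
      exact IsPrimitiveRoot.orderOf ζ
    cases l with
    | zero =>
      rw [pow_zero] at h2
      rw [IsPrimitiveRoot.one_right_iff.1 h2, one_pow]
    | succ l =>
      have h3 := norm_pow_eq hN h2
      have h4 : ‖ζ - 1‖ ^ (p ^ l * (p - 1)) ≤ c ^ (p ^ l * (p - 1)) :=
        pow_le_pow_left₀ (norm_nonneg _) hζ _
      have h5 : l + 1 ≤ M := by
        by_contra hcon
        have h6 := hM (p ^ l * (p - 1)) (by
          have := le_exp (p := p) l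
          omega)
        linarith
      exact h2.pow_eq_one_iff_dvd _ |>.2 (pow_dvd_pow p h5)
  · exact ⟨0, fun ζ _ h => absurd (le_trans (norm_nonneg _) h) hc0⟩

theorem exists_lt_norm (hN : StmtNorm) {c : ℝ} (hc : c < 1) :
    ∃ M : ℕ, ∀ (j : ℕ) (ζ : PadicAlgCl p), M ≤ j → IsPrimitiveRoot ζ (p ^ (j + 1)) →
      c < ‖ζ - 1‖ := by
  by_cases hc0 : 0 ≤ c
  · obtain ⟨M, hM⟩ := exists_bound (p := p) hc0 hc
    refine ⟨M, fun j ζ hj h => ?_⟩
    by_contra hcon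
    rw [not_lt] at hcon
    have h3 := norm_pow_eq hN h
    have h4 : ‖ζ - 1‖ ^ (p ^ j * (p - 1)) ≤ c ^ (p ^ j * (p - 1)) :=
      pow_le_pow_left₀ (norm_nonneg _) hcon _
    have h6 := hM (p ^ j * (p - 1)) (by
      have := le_exp (p := p) j
      omega)
    linarith
  · exact ⟨0, fun j ζ _ _ => lt_of_lt_of_le (not_le.1 hc0) (norm_nonneg _)⟩

/-! ### ideals defined by an ultrafilter -/

section ideals

variable {R : Type} [CommRing R] (U : Ultrafilter ℕ) (φ : ℕ → (R →+* PadicAlgCl p))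
  (hφ : ∀ m r, ‖φ m r‖ ≤ 1)

/-- elements bounded away from `1` -/
def ppI : Ideal R where
  carrier := {f | ∃ c : ℝ, c < 1 ∧ ∀ᶠ m in (U : Filter ℕ), ‖φ m f‖ ≤ c}
  add_mem' := by
    rintro a b ⟨c, hc, h⟩ ⟨c', hc', h'⟩
    refine ⟨max c c', max_lt hc hc', ?_⟩
    filter_upwards [h, h'] with m h1 h2
    rw [map_add]
    exact (IsUltrametricDist.norm_add_le_max _ _).trans (max_le_max h1 h2)
  zero_mem' := ⟨0, one_pos, by simp⟩
  smul_mem' := by
    rintro r a ⟨c, hc, h⟩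
    refine ⟨c, hc, ?_⟩
    filter_upwards [h] with m h1
    rw [smul_eq_mul, map_mul, norm_mul]
    calc ‖φ m r‖ * ‖φ m a‖ ≤ 1 * c := mul_le_mul (hφ m r) h1 (norm_nonneg _) zero_le_one
      _ = c := one_mul c

theorem mem_ppI (f : R) : f ∈ ppI U φ hφ ↔
    ∃ c : ℝ, c < 1 ∧ ∀ᶠ m in (U : Filter ℕ), ‖φ m f‖ ≤ c := Iff.rfl

theorem ppI_isPrime : (ppI U φ hφ).IsPrime := by
  refine ⟨?_, ?_⟩
  · rw [Ideal.ne_top_iff_one, mem_ppI]
    rintro ⟨c, hc, h⟩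
    obtain ⟨m, hm⟩ := h.exists
    rw [map_one, norm_one] at hm
    linarith
  · intro a b hab
    rw [mem_ppI] at hab
    obtain ⟨c, hc, h⟩ := hab
    by_contra hcon
    rw [not_or, mem_ppI, mem_ppI] at hcon
    obtain ⟨ha, hb⟩ := hcon
    push Not at ha hb
    have hc0 : 0 ≤ c := by
      obtain ⟨m, hm⟩ := h.exists
      exact le_trans (norm_nonneg _) hm
    have hc1 : (1 + c) / 2 < 1 := by linarith
    have h1 := ha _ hc1
    have h2 := hb _ hc1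
    have h1' : ∀ᶠ m in (U : Filter ℕ), (1 + c) / 2 < ‖φ m a‖ := h1
    have h2' : ∀ᶠ m in (U : Filter ℕ), (1 + c) / 2 < ‖φ m b‖ := h2
    obtain ⟨m, hm1, hm2, hm3⟩ := (h1'.and (h2'.and h)).exists
    rw [map_mul, norm_mul] at hm3
    have h3 : (1 + c) / 2 * ((1 + c) / 2) < ‖φ m a‖ * ‖φ m b‖ :=
      mul_lt_mul'' hm1 hm2 (by positivity) (by positivity)
    nlinarith [sq_nonneg (1 - c)]

variable (x : ℕ → ℝ)

/-- elements smaller than all powers of `x` -/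
def nnI (hx0 : ∀ m, 0 ≤ x m) : Ideal R where
  carrier := {f | ∀ N : ℕ, ∀ᶠ m in (U : Filter ℕ), ‖φ m f‖ ≤ x m ^ N}
  add_mem' := by
    intro a b h h' N
    filter_upwards [h N, h' N] with m h1 h2
    rw [map_add]
    exact (IsUltrametricDist.norm_add_le_max _ _).trans (max_le h1 h2)
  zero_mem' := by
    intro N
    refine Eventually.of_forall fun m => ?_
    rw [map_zero, norm_zero]
    exact pow_nonneg (hx0 m) N
  smul_mem' := by
    intro r a h N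
    filter_upwards [h N] with m h1
    rw [smul_eq_mul, map_mul, norm_mul]
    calc ‖φ m r‖ * ‖φ m a‖ ≤ 1 * x m ^ N := mul_le_mul (hφ m r) h1 (norm_nonneg _) zero_le_one
      _ = x m ^ N := one_mul _

variable (hx0 : ∀ m, 0 ≤ x m)

theorem mem_nnI (f : R) : f ∈ nnI U φ hφ x hx0 ↔
    ∀ N : ℕ, ∀ᶠ m in (U : Filter ℕ), ‖φ m f‖ ≤ x m ^ N := Iff.rfl

theorem nnI_isPrime (hx1 : ∀ᶠ m in (U : Filter ℕ), x m < 1) :
    (nnI U φ hφ x hx0).IsPrime := by
  refine ⟨?_, ?_⟩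
  · rw [Ideal.ne_top_iff_one, mem_nnI]
    intro h
    obtain ⟨m, hm, hm1⟩ := ((h 1).and hx1).exists
    rw [map_one, norm_one, pow_one] at hm
    linarith
  · intro a b hab
    rw [mem_nnI] at hab
    by_contra hcon
    rw [not_or, mem_nnI, mem_nnI] at hcon
    obtain ⟨ha, hb⟩ := hcon
    push Not at ha hb
    obtain ⟨N, h1⟩ := ha
    obtain ⟨N', h2⟩ := hb
    have h1' : ∀ᶠ m in (U : Filter ℕ), x m ^ N < ‖φ m a‖ := h1
    have h2' : ∀ᶠ m in (U : Filter ℕ), x m ^ N' < ‖φ m b‖ := h2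
    obtain ⟨m, hm1, hm2, hm3⟩ := (h1'.and (h2'.and (hab (N + N')))).exists
    rw [map_mul, norm_mul, pow_add] at hm3
    have h3 : x m ^ N * x m ^ N' < ‖φ m a‖ * ‖φ m b‖ :=
      mul_lt_mul'' hm1 hm2 (pow_nonneg (hx0 m) _) (pow_nonneg (hx0 m) _)
    linarith

omit hp in
/-- elements vanishing almost everywhere -/
def QI (hp : Fact p.Prime) (φ : ℕ → (R →+* PadicAlgCl p)) : Ideal R where
  carrier := {f | ∀ᶠ m in (U : Filter ℕ), φ m f = 0}
  add_mem' := by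
    intro a b h h'
    filter_upwards [h, h'] with m h1 h2
    rw [map_add, h1, h2, add_zero]
  zero_mem' := Eventually.of_forall fun m => map_zero _
  smul_mem' := by
    intro r a h
    filter_upwards [h] with m h1
    rw [smul_eq_mul, map_mul, h1, mul_zero]

theorem mem_QI (f : R) : f ∈ QI U hp φ ↔ ∀ᶠ m in (U : Filter ℕ), φ m f = 0 := Iff.rfl

theorem QI_isPrime : (QI U hp φ).IsPrime := by
  refine ⟨?_, ?_⟩
  · rw [Ideal.ne_top_iff_one, mem_QI]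
    intro h
    obtain ⟨m, hm⟩ := h.exists
    rw [map_one] at hm
    exact one_ne_zero hm
  · intro a b hab
    rw [mem_QI] at hab
    rw [mem_QI, mem_QI, ← Ultrafilter.eventually_or]
    filter_upwards [hab] with m hm
    rw [map_mul] at hm
    exact mul_eq_zero.1 hm

end ideals

theorem norm_p : ‖((p : ℕ) : PadicAlgCl p)‖ = (p : ℝ)⁻¹ := by
  have h := PadicAlgCl.norm_extends p (p : ℚ_[p])
  have h2 : (algebraMap ℚ_[p] (PadicAlgCl p)) (p : ℚ_[p]) = (p : PadicAlgCl p) := map_natCast _ _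
  have h3 : ‖(algebraMap ℚ_[p] (PadicAlgCl p)) (p : ℚ_[p])‖ = ‖(p : ℚ_[p])‖ := h
  rw [h2, Padic.norm_p] at h3
  exact h3

end Pool.Agent.Helper88.ProP
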