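import Mathlib
import Pool.Agent.Helper88.ProP.Dep

/-!
# Packet D of MP_ac806c_lc: the dependence lemma
-/

set_option autoImplicit false
set_option linter.unusedSectionVars false

namespace Pool.Agent.Helper88.ProP

open IsLocalRing Pool.Agent.Helper85.ProP Filter Topology

variable {p : ℕ} [hp : Fact p.Prime]

theorem norm_smul_le {d : ℕ} {R : Type} [CommRing R] [IsLocalRing R] [IsNoetherianRing R]
    [Algebra ℤ_[p] R] {ρ : (Fin d → ℤ_[p]) → R} (H : Hyp p ρ) (φ : R →+* PadicAlgCl p)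
    (hφ : ∀ r, ‖φ r‖ ≤ 1) (β : ℤ_[p]) (q : Fin d → ℤ_[p]) :
    ‖φ (ρ (β • q)) - 1‖ ≤ ‖φ (ρ q) - 1‖ := by
  obtain ⟨r, hr⟩ := Ideal.mem_span_singleton.1 (H.smul_sub_one_mem β q)
  have h1 : φ (ρ (β • q)) - 1 = (φ (ρ q) - 1) * φ r := by
    calc φ (ρ (β • q)) - 1 = φ (ρ (β • q) - 1) := by rw [map_sub, map_one]
      _ = (φ (ρ q) - 1) * φ r := by rw [hr, map_mul, map_sub, map_one]
  rw [h1, norm_mul]
  exact mul_le_of_le_one_right (norm_nonneg _) (hφ r)

theorem core (hN : StmtNorm) {d : ℕ} {R : Type} [CommRing R] [IsLocalRing R]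
    [IsNoetherianRing R] [Algebra ℤ_[p] R] {ρ : (Fin d → ℤ_[p]) → R} (H : Hyp p ρ)
    (P : Ideal R) [P.IsPrime] (hpP : (p : R) ∉ P)
    (hmax : ∀ P' : Ideal R, P'.IsPrime → P < P' → (p : R) ∉ P' → Module.Finite ℤ_[p] (R ⧸ P'))
    (φ : ℕ → (R →+* PadicAlgCl p)) (hP : ∀ m, ∀ r ∈ P, φ m r = 0) (hφ : ∀ m r, ‖φ m r‖ ≤ 1)
    (U : Ultrafilter ℕ) (hU : (U : Filter ℕ) ≤ atTop) (s t : Fin d → ℤ_[p]) (j : ℕ → ℕ)
    (hj : ∀ᶠ m in (U : Filter ℕ), m + 1 ≤ j m)
    (hs : ∀ᶠ m in (U : Filter ℕ), IsPrimitiveRoot (φ m (ρ s)) (p ^ j m))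
    (ht : ∀ᶠ m in (U : Filter ℕ), φ m (ρ t) ^ p ^ j m = 1) :
    ∃ (N : ℕ) (α : ℤ_[p]), ρ ((p : ℤ_[p]) ^ N • t - α • s) - 1 ∈ P := by
  classical
  have hppos : 0 < p := (Fact.out : p.Prime).pos
  -- exponents
  obtain ⟨a, ha⟩ : ∃ a : ℕ → ℕ, ∀ᶠ m in (U : Filter ℕ), φ m (ρ s) ^ a m = φ m (ρ t) := by
    refine ⟨fun m => if h : ∃ i, φ m (ρ s) ^ i = φ m (ρ t) then h.choose else 0, ?_⟩
    filter_upwards [hs, ht] with m h1 h2
    have hne : NeZero (p ^ j m) := ⟨(pow_pos hppos _).ne'⟩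
    obtain ⟨i, _, hi⟩ := h1.eq_pow_of_pow_eq_one h2
    have h3 : ∃ i, φ m (ρ s) ^ i = φ m (ρ t) := ⟨i, hi⟩
    rw [dif_pos h3]
    exact h3.choose_spec
  -- their limit
  obtain ⟨α, hα⟩ : ∃ α : ℤ_[p], Tendsto (fun m => (a m : ℤ_[p])) (U : Filter ℕ) (𝓝 α) := by
    obtain ⟨α, -, hα⟩ := (isCompact_univ (X := ℤ_[p])).ultrafilter_le_nhds
      (U.map (fun m => (a m : ℤ_[p]))) (by simp)
    exact ⟨α, hα⟩
  have hdiv : ∀ N : ℕ, ∀ᶠ m in (U : Filter ℕ), ∃ β : ℤ_[p],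
      α = (a m : ℤ_[p]) + (p : ℤ_[p]) ^ N * β := by
    intro N
    have hε : (0 : ℝ) < (p : ℝ) ^ (-N : ℤ) := by
      have : (0 : ℝ) < p := by exact_mod_cast hppos
      positivity
    have h1 := (Metric.tendsto_nhds.1 hα) _ hε
    filter_upwards [h1] with m hm
    rw [dist_comm, dist_eq_norm] at hm
    have h2 := (PadicInt.norm_le_pow_iff_mem_span_pow (α - (a m : ℤ_[p])) N).1 hm.le
    rw [Ideal.mem_span_singleton] at h2
    obtain ⟨β, hβ⟩ := h2
    exact ⟨β, by rw [← hβ]; ring⟩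
  set h : Fin d → ℤ_[p] := t - α • s with hh
  -- the value at `h`
  have key1 : ∀ N : ℕ, ∀ᶠ m in (U : Filter ℕ), ∃ β : ℤ_[p],
      φ m (ρ h) = φ m (ρ (β • ((p : ℤ_[p]) ^ N • s))) := by
    intro N
    filter_upwards [hdiv N, ha] with m h1 h2
    obtain ⟨β, hβ⟩ := h1
    refine ⟨-β, ?_⟩
    have e1 : h + (a m : ℤ_[p]) • s = t + (-β) • ((p : ℤ_[p]) ^ N • s) := by
      rw [hh, hβ]
      module
    have e2 : ρ h * ρ s ^ a m = ρ t * ρ ((-β) • ((p : ℤ_[p]) ^ N • s)) := by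
      rw [← H.natCast_smul, ← H.add, e1, H.add]
    have e3 := congrArg (φ m) e2
    rw [map_mul, map_mul, map_pow, h2, mul_comm] at e3
    have hne : φ m (ρ t) ≠ 0 := ((H.isUnit t).map (φ m)).ne_zero
    exact mul_left_cancel₀ hne e3
  have hpow : ∀ m N, φ m (ρ ((p : ℤ_[p]) ^ N • s)) = φ m (ρ s) ^ p ^ N := by
    intro m N
    rw [H.p_pow_smul, map_pow]
  -- norms
  set x : ℕ → ℝ := fun m => ‖φ m (ρ s) - 1‖ with hx
  have hx0 : ∀ m, 0 ≤ x m := fun m => norm_nonneg _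
  have hjj : ∀ᶠ m in (U : Filter ℕ), ∃ i, j m = i + 1 ∧ m ≤ i := by
    filter_upwards [hj] with m hm
    exact ⟨j m - 1, by omega, by omega⟩
  have hxpos : ∀ᶠ m in (U : Filter ℕ), 0 < x m := by
    filter_upwards [hjj, hs] with m h1 h2
    obtain ⟨i, hi, _⟩ := h1
    rw [hi] at h2
    exact norm_pos hN h2
  have hx1 : ∀ᶠ m in (U : Filter ℕ), x m < 1 := by
    filter_upwards [hjj, hs] with m h1 h2
    obtain ⟨i, hi, _⟩ := h1
    rw [hi] at h2
    exact norm_lt_one hN h2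
  have hxlim : Tendsto x (U : Filter ℕ) (𝓝 1) := by
    rw [tendsto_order]
    constructor
    · intro c hc
      obtain ⟨M, hM⟩ := exists_lt_norm (p := p) hN hc
      filter_upwards [hjj, hs, (eventually_ge_atTop M).filter_mono hU] with m h1 h2 h3
      obtain ⟨i, hi, hi2⟩ := h1
      rw [hi] at h2
      exact hM i _ (by omega) h2
    · intro c hc
      filter_upwards [hx1] with m hm
      exact hm.trans hc
  have hxpow : ∀ N : ℕ, ∀ᶠ m in (U : Filter ℕ), ‖φ m (ρ s) ^ p ^ N - 1‖ = x m ^ p ^ N := by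
    intro N
    filter_upwards [hj, hs, (eventually_ge_atTop N).filter_mono hU] with m h1 h2 h3
    exact norm_pow_p hN N h2 (by omega)
  -- the ideals
  have hppP : (ppI U φ hφ).IsPrime := ppI_isPrime U φ hφ
  have hnnP : (nnI U φ hφ x hx0).IsPrime := nnI_isPrime U φ hφ x hx0 hx1
  have hPpp : P ≤ ppI U φ hφ := by
    intro r hr
    rw [mem_ppI]
    exact ⟨0, one_pos, Eventually.of_forall fun m => by rw [hP m r hr, norm_zero]⟩
  have hppp : (p : R) ∈ ppI U φ hφ := by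
    rw [mem_ppI]
    refine ⟨(p : ℝ)⁻¹, inv_p_lt_one, Eventually.of_forall fun m => ?_⟩
    rw [map_natCast]
    exact norm_p.le
  have hle : ppI U φ hφ ≤ nnI U φ hφ x hx0 := by
    intro r hr
    rw [mem_ppI] at hr
    obtain ⟨c, hc, h1⟩ := hr
    rw [mem_nnI]
    intro N
    have h2 : Tendsto (fun m => x m ^ N) (U : Filter ℕ) (𝓝 (1 ^ N)) := hxlim.pow N
    rw [one_pow] at h2
    filter_upwards [h1, h2.eventually (lt_mem_nhds hc)] with m h3 h4
    exact h3.trans h4.le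
  have hnn : nnI U φ hφ x hx0 ≠ maximalIdeal R := by
    intro heq
    have h1 := H.sub_mem s
    rw [← heq, mem_nnI] at h1
    obtain ⟨m, h2, h3, h4⟩ := ((h1 2).and (hxpos.and hx1)).exists
    have h5 : ‖φ m (ρ s - 1)‖ = x m := by rw [map_sub, map_one]
    rw [h5] at h2
    nlinarith
  have heq := eq_of_primes P hpP hmax (ppI U φ hφ) (nnI U φ hφ x hx0) hPpp hppp hle hnn
  -- `ρ h - 1` is in `nn = pp`
  have hmem : ρ h - 1 ∈ ppI U φ hφ := by
    rw [heq, mem_nnI]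
    intro N
    filter_upwards [key1 N, hxpow N, hx1] with m h1 h2 h3
    obtain ⟨β, hβ⟩ := h1
    rw [map_sub, map_one, hβ]
    refine (norm_smul_le H (φ m) (hφ m) _ _).trans ?_
    rw [hpow, h2]
    exact pow_le_pow_of_le_one (hx0 m) h3.le (Nat.lt_pow_self (Fact.out : p.Prime).one_lt).le
  rw [mem_ppI] at hmem
  obtain ⟨c, hc, hcm⟩ := hmem
  obtain ⟨j0, hj0⟩ := exists_order_bound (p := p) hN hc
  have hord : ∀ᶠ m in (U : Filter ℕ), ∃ i, φ m (ρ h) ^ p ^ i = 1 := by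
    filter_upwards [key1 0, hs] with m h1 h2
    obtain ⟨β, hβ⟩ := h1
    refine ⟨j m, ?_⟩
    rw [hβ, pow_zero, one_smul, ← map_pow, ← H.p_pow_smul]
    have e1 : (p : ℤ_[p]) ^ j m • β • s = β • ((p : ℤ_[p]) ^ j m • s) := by
      module
    rw [e1]
    have h3 := norm_smul_le H (φ m) (hφ m) β ((p : ℤ_[p]) ^ j m • s)
    rw [hpow, h2.pow_eq_one, sub_self, norm_zero] at h3
    exact sub_eq_zero.1 (norm_le_zero_iff.1 h3)
  have hzero : ∀ᶠ m in (U : Filter ℕ), φ m (ρ ((p : ℤ_[p]) ^ j0 • h) - 1) = 0 := by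
    filter_upwards [hcm, hord] with m h1 h2
    rw [map_sub, map_one] at h1
    have h3 := hj0 _ h2 h1
    rw [map_sub, map_one, H.p_pow_smul, map_pow, h3, sub_self]
  -- the ideal `Q`
  have hQP : (QI U hp φ).IsPrime := QI_isPrime U φ
  have hPQ : P ≤ QI U hp φ := by
    intro r hr
    rw [mem_QI]
    exact Eventually.of_forall fun m => hP m r hr
  have hpQ : (p : R) ∉ QI U hp φ := by
    rw [mem_QI]
    intro h1
    obtain ⟨m, hm⟩ := h1.exists
    rw [map_natCast] at hm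
    exact (Nat.cast_ne_zero.2 hppos.ne') hm
  have hQeq : P = QI U hp φ := by
    by_contra hne
    have hlt : P < QI U hp φ := lt_of_le_of_ne hPQ hne
    have hfin := hmax _ hQP hlt hpQ
    obtain ⟨S, hS⟩ := (isNoetherianRing_iff_ideal_fg R).1 inferInstance (QI U hp φ)
    have h1 : ∀ᶠ m in (U : Filter ℕ), ∀ r ∈ QI U hp φ, φ m r = 0 := by
      have h2 : ∀ᶠ m in (U : Filter ℕ), ∀ r ∈ S, φ m r = 0 := by
        rw [Filter.eventually_all_finset]
        intro r hr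
        have h3 : r ∈ QI U hp φ := by
          rw [← hS]
          exact Ideal.subset_span hr
        exact h3
      filter_upwards [h2] with m hm r hr
      have h3 : QI U hp φ ≤ RingHom.ker (φ m) := by
        rw [← hS, Submodule.span_le]
        intro y hy
        exact hm y hy
      exact h3 hr
    obtain ⟨m, hm1, hm2, hm3⟩ := (h1.and (hs.and hj)).exists
    obtain ⟨m', hm1', hm2', hm3', hm4'⟩ := (h1.and (hs.and (hj.and
      ((eventually_ge_atTop (j m)).filter_mono hU)))).exists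
    have h4 : ρ s ^ p ^ j m - 1 ∈ QI U hp φ := by
      refine ker_le_of_finite (QI U hp φ) hfin (φ m) hm1 _ ?_
      rw [map_sub, map_pow, map_one, hm2.pow_eq_one, sub_self]
    have h5 := hm1' _ h4
    rw [map_sub, map_pow, map_one, sub_eq_zero] at h5
    have h6 := (hm2'.pow_eq_one_iff_dvd _).1 h5
    have h7 := (Nat.pow_dvd_pow_iff_le_right (Fact.out : p.Prime).one_lt).1 h6
    omega
  refine ⟨j0, (p : ℤ_[p]) ^ j0 * α, ?_⟩
  have e1 : (p : ℤ_[p]) ^ j0 • t - ((p : ℤ_[p]) ^ j0 * α) • s = (p : ℤ_[p]) ^ j0 • h := by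
    rw [hh]
    module
  rw [e1, hQeq, mem_QI]
  exact hzero

theorem stmtDep (hN : StmtNorm) : StmtDep := by
  intro p hp d R _ _ _ _ ρ H P hPp hpP _ hmax φ hP hφ g k hg hk
  classical
  set U : Ultrafilter ℕ := Filter.hyperfilter ℕ with hUdef
  have hU : (U : Filter ℕ) ≤ atTop := by
    rw [← Nat.cofinite_eq_atTop]
    exact Filter.hyperfilter_le_cofinite
  have hp1 : 1 < p := (Fact.out : p.Prime).one_lt
  by_cases hcase : ∀ᶠ m in (U : Filter ℕ), φ m (ρ k) ^ p ^ (m + 1) = 1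
  · obtain ⟨N, α, h⟩ := core hN H P hpP hmax φ hP hφ U hU g k (fun m => m + 1)
      (Eventually.of_forall fun m => le_rfl) (Eventually.of_forall fun m => hg m) hcase
    exact ⟨N, α, Or.inl h⟩
  · have hcase' : ∀ᶠ m in (U : Filter ℕ), ¬ φ m (ρ k) ^ p ^ (m + 1) = 1 :=
      Ultrafilter.eventually_not.2 hcase
    -- the orders of `φ m (ρ k)`
    have hex : ∀ m, ∃ l : ℕ, IsPrimitiveRoot (φ m (ρ k)) (p ^ l) := by
      intro m
      obtain ⟨i, hi⟩ := hk m
      have h1 : orderOf (φ m (ρ k)) ∣ p ^ i := orderOf_dvd_of_pow_eq_one hi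
      obtain ⟨l, _, hl2⟩ := (Nat.dvd_prime_pow (Fact.out : p.Prime)).1 h1
      exact ⟨l, by rw [← hl2]; exact IsPrimitiveRoot.orderOf _⟩
    choose j hj using hex
    have hjlt : ∀ᶠ m in (U : Filter ℕ), m + 1 ≤ j m := by
      filter_upwards [hcase'] with m hm
      by_contra hcon
      apply hm
      rw [(hj m).pow_eq_one_iff_dvd]
      exact pow_dvd_pow p (by omega)
    obtain ⟨N, α, h⟩ := core hN H P hpP hmax φ hP hφ U hU k g j hjlt
      (Eventually.of_forall fun m => hj m) (by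
        filter_upwards [hjlt] with m hm
        rw [(hg m).pow_eq_one_iff_dvd]
        exact pow_dvd_pow p hm)
    exact ⟨N, α, Or.inr h⟩

end Pool.Agent.Helper88.ProP
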